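import Pool.Agent.R3B.StmtsB

/-!
# R3B, row HDY: the one dimensional Hardy identity
-/

set_option autoImplicit false

namespace Pool.Agent.R3B.H51

open Pool.Agent.R3B MeasureTheory Set Filter Topology

theorem hdy : HdyStmt := by
  intro ℓ f g hℓ hg hf
  obtain ⟨K, hK⟩ := isCompact_Icc.exists_bound_of_continuousOn hg
  have hfb : ∀ r, 0 ≤ r → r ≤ ℓ → |f r| ≤ K * r := by
    intro r h0 h1
    rw [hf r h0 h1]
    have h2 := intervalIntegral.norm_integral_le_of_norm_le_const (a := 0) (b := r) (C := K) (f := g)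
      (fun x hx => by
        rw [uIoc_of_le h0] at hx
        exact hK x ⟨hx.1.le, hx.2.trans h1⟩)
    rw [sub_zero, abs_of_nonneg h0] at h2
    exact h2
  have hf0 : f 0 = 0 := by
    rw [hf 0 le_rfl hℓ.le]
    simp
  have hgi : IntervalIntegrable g volume 0 ℓ := hg.intervalIntegrable_of_Icc hℓ.le
  have hder : ∀ r ∈ Ioo (0 : ℝ) ℓ, HasDerivAt f (g r) r := by
    intro r hr
    have h1 : IntervalIntegrable g volume 0 r :=
      (hg.mono (Icc_subset_Icc le_rfl hr.2.le)).intervalIntegrable_of_Icc hr.1.le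
    have h2 : StronglyMeasurableAtFilter g (𝓝 r) volume :=
      ContinuousOn.stronglyMeasurableAtFilter isOpen_Ioo (hg.mono Ioo_subset_Icc_self) r hr
    have h3 : ContinuousAt g r := hg.continuousAt (Icc_mem_nhds hr.1 hr.2)
    have h4 := intervalIntegral.integral_hasDerivAt_right h1 h2 h3
    refine h4.congr_of_eventuallyEq ?_
    filter_upwards [Ioo_mem_nhds hr.1 hr.2] with x hx
    exact hf x hx.1.le hx.2.le
  have hfc : ContinuousOn f (Icc 0 ℓ) := by
    have h1 := intervalIntegral.continuousOn_primitive_interval (a := 0) (b := ℓ) (f := g) (μ := volume)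
      (by
        rw [uIcc_of_le hℓ.le]
        exact hg.integrableOn_Icc)
    rw [uIcc_of_le hℓ.le] at h1
    exact h1.congr fun x hx => hf x hx.1 hx.2
  have hF : ContinuousOn (fun r => f r ^ 2 / r) (Icc 0 ℓ) := by
    intro r hr
    rcases eq_or_lt_of_le hr.1 with h0 | h0
    · rw [← h0]
      have hz : f 0 ^ 2 / 0 = 0 := by simp
      show Tendsto (fun r => f r ^ 2 / r) (𝓝[Icc 0 ℓ] 0) (𝓝 (f 0 ^ 2 / 0))
      rw [hz]
      have hsq : Tendsto (fun r : ℝ => K ^ 2 * r) (𝓝[Icc 0 ℓ] 0) (𝓝 0) := by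
        have h1 : Tendsto (fun r : ℝ => K ^ 2 * r) (𝓝 0) (𝓝 (K ^ 2 * 0)) :=
          (continuous_const.mul continuous_id).tendsto 0
        rw [mul_zero] at h1
        exact h1.mono_left nhdsWithin_le_nhds
      refine squeeze_zero_norm' ?_ hsq
      filter_upwards [self_mem_nhdsWithin] with x hx
      rw [Real.norm_eq_abs, abs_div, abs_pow, abs_of_nonneg hx.1]
      rcases eq_or_lt_of_le hx.1 with h2 | h2
      · rw [← h2]
        simp
      · rw [div_le_iff₀ h2]
        have h3 := hfb x hx.1 hx.2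
        have h4 : |f x| ^ 2 ≤ (K * x) ^ 2 := pow_le_pow_left₀ (abs_nonneg _) h3 2
        calc |f x| ^ 2 ≤ (K * x) ^ 2 := h4
          _ = K ^ 2 * x * x := by ring
    · exact ((hfc r hr).pow 2).div continuousWithinAt_id h0.ne'
  have hF' : ∀ r ∈ Ioo (0 : ℝ) ℓ,
      HasDerivAt (fun r => f r ^ 2 / r) (g r ^ 2 - (g r - f r / r) ^ 2) r := by
    intro r hr
    have h1 := ((hder r hr).pow 2).div (hasDerivAt_id r) hr.1.ne'
    refine h1.congr_deriv ?_
    have hr0 : r ≠ 0 := hr.1.ne'
    simp only [id, Pi.pow_apply]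
    field_simp
    ring
  have hi1 : IntervalIntegrable (fun r => g r ^ 2) volume 0 ℓ :=
    (hg.pow 2).intervalIntegrable_of_Icc hℓ.le
  have hi2 : IntervalIntegrable (fun r => (g r - f r / r) ^ 2) volume 0 ℓ := by
    rw [intervalIntegrable_iff_integrableOn_Ioc_of_le hℓ.le]
    have hmeas : AEStronglyMeasurable (fun r => (g r - f r / r) ^ 2) (volume.restrict (Ioc 0 ℓ)) := by
      refine ContinuousOn.aestronglyMeasurable ?_ measurableSet_Ioc
      intro r hr
      have hm : Ioc (0 : ℝ) ℓ ⊆ Icc 0 ℓ := Ioc_subset_Icc_self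
      exact (((hg.mono hm) r hr).sub (((hfc.mono hm) r hr).div continuousWithinAt_id hr.1.ne')).pow 2
    refine IntegrableOn.of_bound (C := (K + K) ^ 2) (by simp) hmeas ?_
    · filter_upwards [ae_restrict_mem measurableSet_Ioc] with r hr
      rw [Real.norm_eq_abs, abs_pow]
      refine pow_le_pow_left₀ (abs_nonneg _) ?_ 2
      refine (abs_sub _ _).trans ?_
      refine add_le_add (hK r ⟨hr.1.le, hr.2⟩) ?_
      rw [abs_div, abs_of_pos hr.1, div_le_iff₀ hr.1]
      exact hfb r hr.1.le hr.2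
  have hmain := intervalIntegral.integral_eq_sub_of_hasDerivAt_of_le hℓ.le hF hF' (hi1.sub hi2)
  rw [intervalIntegral.integral_sub hi1 hi2] at hmain
  simp only [hf0] at hmain
  norm_num at hmain
  linarith

end Pool.Agent.R3B.H51
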